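import Mathlib
import Pool.Agent.Helper436.AD.StmtU
import Pool.Agent.Helper278.SF.Main

set_option autoImplicit false

namespace Pool.Agent.Results.MP_0c7c15_an.SepNonFull

open Pool.Agent.Helper278 Pool.Agent.Helper436.AD.TU

/-- There is a separable II₁ factor `N` such that for every nonprincipal ultrafilter `U` on `ℕ` the
tracial ultrapower `Q = N^U` is not star isomorphic to its amplification `Q³ = M₃(Q)`. -/
theorem result :
    ∃ N : SepFactor, ∀ U : Ultrafilter ℕ, (∀ n, {n} ∉ U) →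
      Nonempty (UltraPow U N) ∧
        ∀ (Q : Type) [Ring Q] [StarRing Q] [Algebra ℂ Q] (π : (ℕ → Elt N.alg) → Q) (φ : Q → ℂ),
          CE.IsTracialUltrapower N.tr U π φ → IsEmpty (Q ≃⋆ₐ[ℂ] Matrix (Fin 3) (Fin 3) Q) :=
  Pool.Agent.Helper278.SF.sep_nonfull

end Pool.Agent.Results.MP_0c7c15_an.SepNonFull
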