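import Mathlib
import Pool.Agent.Helper278.RGStmt2
import Pool.Agent.Helper278.RGFund

set_option autoImplicit false

namespace Pool.Agent.Results.MP_0c7c15_an.TrivialFG

open Pool.Agent.Helper278 Pool.Agent.Helper278.RG

/-- There is a II₁ factor `N` such that for every nonprincipal ultrafilter `U` on `ℕ` the tracial
ultrapower `N^U` is isomorphic to none of its amplifications `(N^U)^t`, `t > 0`, `t ≠ 1`. -/
theorem result :
    ∃ (H : Type) (_ : NormedAddCommGroup H) (_ : InnerProductSpace ℂ H) (_ : CompleteSpace H)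
      (N : VonNeumannAlgebra H) (τ : Elt N → ℂ),
      IsIIOneFactor N τ ∧ UltrapowersExist (M := Elt N) τ ∧
        TrivialFundamentalGroup (M := Elt N) τ := by
  have b : HilbertBasis G0 ℂ (lp (fun _ : G0 => ℂ) 2) := default
  refine ⟨lp (fun _ : G0 => ℂ) 2, inferInstance, inferInstance, inferInstance, LK b, (TL b).τ,
    factor0 b, fun U _ => exists_ultrapower (TL b) U, ?_⟩
  exact trivialFG_of_homsUnital (TL b) (lyap0 b)
    fun U hU Q _ _ _ _ π σ hπ f hf => hom_unital b hU hπ f hf

end Pool.Agent.Results.MP_0c7c15_an.TrivialFG
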